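import Pool.Agent.Helper93.SU.Local
import Pool.Agent.Helper93.SU.Ext
import Pool.Agent.Helper93.SU.EwDef
import Pool.Agent.Helper33.Local
import Pool.Agent.Helper33.Eps

/-!
# Transfer of the local theorem to a discretely valued field
-/

set_option autoImplicit false

open Finset Polynomial

namespace Pool.Agent.Helper36.PQ

open Pool.Agent.Helper33 Pool.Agent.Helper93.SU

universe u

/-- scaling a real valuation -/
noncomputable def scaleRV {M : Type*} [Field M] (v : RV M) (e : ℝ) (he : 0 < e) : RV M where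
  o x := v.o x / e
  mul x y hx hy := by rw [v.mul x y hx hy, add_div]
  add x y hx hy hxy := by
    have h := v.add x y hx hy hxy
    rcases min_le_iff.mp h with h1 | h1
    · exact (min_le_left _ _).trans (div_le_div_of_nonneg_right h1 he.le)
    · exact (min_le_right _ _).trans (div_le_div_of_nonneg_right h1 he.le)

lemma RV.o_pow' {M : Type*} [Field M] (v : RV M) (x : M) (hx : x ≠ 0) (n : ℕ) :
    v.o (x ^ n) = n * v.o x := by
  induction n with
  | zero => simp [v.o_one]
  | succ n ih =>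
    rw [pow_succ, v.mul _ _ (pow_ne_zero n hx) hx, ih]
    push_cast
    ring

section data

variable {K : Type u} [Field K] (v : DV K) (f : K[X])

/-- everything needed for the transfer -/
structure Tr (e : ℝ) where
  u : RV (AlgebraicClosure K)
  hu : ∀ x : K, x ≠ 0 → u.o (algebraMap K (AlgebraicClosure K) x) = v.o x
  lam : AlgebraicClosure K
  lam0 : lam ≠ 0
  lam_pow : lam ^ (f.natDegree - 1) = algebraMap K (AlgebraicClosure K) f.leadingCoeff
  e0 : 0 < e

lemma exists_tr {e : ℝ} (he : 0 < e) (hd : 2 ≤ f.natDegree) : Nonempty (Tr v f e) := by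
  obtain ⟨u, hu⟩ := exists_ext v (L := AlgebraicClosure K)
  obtain ⟨lam, hlam⟩ := IsAlgClosed.exists_pow_nat_eq
    (algebraMap K (AlgebraicClosure K) f.leadingCoeff) (show 0 < f.natDegree - 1 by omega)
  have hlc : f.leadingCoeff ≠ 0 := by
    rw [Ne, leadingCoeff_eq_zero]
    rintro rfl
    simp at hd
  refine ⟨⟨u, hu, lam, ?_, hlam, he⟩⟩
  rintro rfl
  rw [zero_pow (by omega)] at hlam
  exact hlc ((_root_.map_eq_zero _).mp hlam.symm)

variable {v f}

namespace Tr

variable {e : ℝ} (T : Tr v f e)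

/-- the scaled valuation -/
noncomputable def rv : RV (AlgebraicClosure K) := scaleRV T.u e T.e0

/-- the embedding -/
noncomputable def emb (x : K) : AlgebraicClosure K := T.lam * algebraMap K (AlgebraicClosure K) x

/-- the conjugated monic polynomial -/
noncomputable def pol : (AlgebraicClosure K)[X] :=
  C T.lam * (f.map (algebraMap K (AlgebraicClosure K))).comp (C T.lam⁻¹ * X)

lemma emb_inj : Function.Injective T.emb := by
  intro x y h
  unfold emb at h
  exact (algebraMap K (AlgebraicClosure K)).injective (mul_left_cancel₀ T.lam0 h)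

lemma emb_sub (x y : K) : T.emb x - T.emb y = T.emb (x - y) := by
  unfold emb
  rw [map_sub]
  ring

lemma u_lam (hd : 2 ≤ f.natDegree) : T.u.o T.lam = alpha v f := by
  have hlc : f.leadingCoeff ≠ 0 := by
    rw [Ne, leadingCoeff_eq_zero]
    rintro rfl
    simp at hd
  have h1 := RV.o_pow' T.u T.lam T.lam0 (f.natDegree - 1)
  rw [T.lam_pow, T.hu _ hlc] at h1
  have h2 := alpha_eq v f hd
  have hdr : (2 : ℝ) ≤ f.natDegree := by exact_mod_cast hd
  rw [Nat.cast_sub (by omega), Nat.cast_one, h2] at h1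
  have h3 : ((f.natDegree : ℝ) - 1) ≠ 0 := by linarith
  exact (mul_left_cancel₀ h3 h1).symm

lemma o_emb (hd : 2 ≤ f.natDegree) {x y : K} (hxy : x ≠ y) :
    T.rv.o (T.emb x - T.emb y) = w v f x y / e := by
  have hne : x - y ≠ 0 := sub_ne_zero.mpr hxy
  rw [T.emb_sub]
  change T.u.o (T.emb (x - y)) / e = _
  unfold emb w
  rw [T.u.mul _ _ T.lam0 ((_root_.map_ne_zero _).mpr hne), T.u_lam hd, T.hu _ hne, add_comm]

lemma natDegree_pol (hd : 2 ≤ f.natDegree) : T.pol.natDegree = f.natDegree := by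
  unfold pol
  rw [natDegree_C_mul T.lam0, natDegree_comp, natDegree_map,
    natDegree_C_mul (inv_ne_zero T.lam0), natDegree_X, mul_one]

lemma coeff_taylor_pol (x : K) (j : ℕ) :
    (taylor (T.emb x) T.pol).coeff j =
      T.lam * (T.lam⁻¹ ^ j * algebraMap K (AlgebraicClosure K) (tc f x j)) := by
  have h1 : taylor (T.emb x) T.pol = C T.lam *
      ((taylor x f).map (algebraMap K (AlgebraicClosure K))).comp (C T.lam⁻¹ * X) := by
    unfold pol emb
    rw [taylor_mul, taylor_C, taylor_apply, taylor_apply, comp_assoc]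
    congr 1
    rw [map_comp, comp_assoc]
    congr 1
    simp only [mul_comp, C_comp, X_comp, Polynomial.map_add, map_X, map_C, add_comp]
    rw [mul_add, ← C_mul, ← mul_assoc, inv_mul_cancel₀ T.lam0, one_mul]
  rw [h1, coeff_C_mul]
  congr 1
  rw [comp_C_mul_X_coeff, coeff_map, mul_comm]
  rfl

lemma eval_pol (x : K) : T.pol.eval (T.emb x) = T.emb (f.eval x) := by
  unfold pol emb
  rw [eval_mul, eval_C, eval_comp, eval_mul, eval_C, eval_X, ← mul_assoc,
    inv_mul_cancel₀ T.lam0, one_mul, eval_map_algebraMap, aeval_algebraMap_apply]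
  rfl

lemma monic_pol (hd : 2 ≤ f.natDegree) : T.pol.Monic := by
  have h1 := T.coeff_taylor_pol 0 f.natDegree
  have h2 := coeff_taylor_natDegree (T.emb 0) T.pol
  rw [T.natDegree_pol hd] at h2
  rw [Monic, ← h2, h1, tc_natDegree, ← T.lam_pow, inv_pow]
  have h3 : T.lam * ((T.lam ^ f.natDegree)⁻¹ * T.lam ^ (f.natDegree - 1)) =
      (T.lam ^ f.natDegree)⁻¹ * (T.lam ^ (f.natDegree - 1) * T.lam) := by ring
  rw [h3, ← pow_succ, Nat.sub_add_cancel (by omega), inv_mul_cancel₀ (pow_ne_zero _ T.lam0)]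

/-- valuation of the Taylor coefficients -/
lemma o_coeff (hd : 2 ≤ f.natDegree) {x : K} {j : ℕ} (hj : tc f x j ≠ 0) :
    T.rv.o ((taylor (T.emb x) T.pol).coeff j) = ((1 - (j : ℝ)) * alpha v f + v.o (tc f x j)) / e := by
  have h0 : algebraMap K (AlgebraicClosure K) (tc f x j) ≠ 0 := (_root_.map_ne_zero _).mpr hj
  have hli : T.lam⁻¹ ≠ 0 := inv_ne_zero T.lam0
  have hinv : T.u.o T.lam⁻¹ = -alpha v f := by
    have := T.u.mul T.lam T.lam⁻¹ T.lam0 hli
    rw [mul_inv_cancel₀ T.lam0, T.u.o_one, T.u_lam hd] at this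
    linarith
  rw [T.coeff_taylor_pol]
  change T.u.o _ / e = _
  rw [T.u.mul _ _ T.lam0 (mul_ne_zero (pow_ne_zero _ hli) h0),
    T.u.mul _ _ (pow_ne_zero _ hli) h0, RV.o_pow' _ _ hli, hinv, T.u_lam hd, T.hu _ hj]
  ring

lemma coeff_ne_zero {x : K} {j : ℕ} :
    (taylor (T.emb x) T.pol).coeff j ≠ 0 ↔ tc f x j ≠ 0 := by
  rw [T.coeff_taylor_pol]
  constructor
  · intro h h'
    rw [h', map_zero] at h
    simp at h
  · intro h
    exact mul_ne_zero T.lam0 (mul_ne_zero (pow_ne_zero _ (inv_ne_zero T.lam0))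
      ((_root_.map_ne_zero _).mpr h))

end Tr

end data

/-- the local data of the transferred situation -/
lemma exists_locData {K : Type u} [Field K] {v : DV K} {f : K[X]} (hd : 2 ≤ f.natDegree)
    {X : Finset K} (hX : ∀ x ∈ X, f.eval x ∈ X) (he : 0 < eps v f X) (T : Tr v f (eps v f X)) :
    ∃ x0 z0, LocData T.rv T.pol (T.emb '' (X : Set K)) x0 z0 := by
  have heR : (0 : ℝ) < eps v f X := by exact_mod_cast he
  have hdr : (2 : ℝ) ≤ f.natDegree := by exact_mod_cast hd
  have hα := alpha_eq v f hd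
  obtain ⟨x0, hx0, i, hi1, hi2, hi3, hi4⟩ := exists_attained v f he
  have hnd := T.natDegree_pol hd
  have hmon := T.monic_pol hd
  have hd1 : 1 ≤ T.pol.natDegree := by omega
  -- coefficients of `pol - pol x`
  have cj : ∀ (x : K) (j : ℕ), 1 ≤ j →
      (taylor (T.emb x) (T.pol - C (T.pol.eval (T.emb x)))).coeff j =
        (taylor (T.emb x) T.pol).coeff j := by
    intro x j hj
    rw [map_sub, taylor_C, coeff_sub, coeff_C, if_neg (by omega), sub_zero]
  have c0 : ∀ x : K, (taylor (T.emb x) (T.pol - C (T.pol.eval (T.emb x)))).coeff 0 = 0 := by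
    intro x
    rw [taylor_coeff_zero, eval_sub, eval_C, sub_self]
  -- exact lower bounds
  have hlow : ∀ x ∈ X, ∀ j, 1 ≤ j → tc f x j ≠ 0 → j ≤ f.natDegree →
      -((f.natDegree : ℝ) - j) ≤ T.rv.o ((taylor (T.emb x) T.pol).coeff j) := by
    intro x hx j hj1 hj2 hj3
    rw [T.o_coeff hd hj2, le_div_iff₀ heR]
    rcases hj3.lt_or_eq with h | h
    · have h1 := DV.ge_le ((epsLe_eps v f hx).2 j hj1 h) hj2
      rw [hα] at h1
      nlinarith
    · subst h
      rw [tc_natDegree, hα]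
      apply le_of_eq
      ring
  refine ⟨T.emb x0, ?_⟩
  -- roots are `-1`-close
  have hroot : ∀ x ∈ X, ∀ z, T.pol.eval z = T.pol.eval (T.emb x) → close T.rv (-1) (T.emb x) z := by
    intro x hx z hz
    obtain ⟨_, j, hj, hj'⟩ := gauss (v := T.rv)
      (monic_sub_C hmon hd1 (T.pol.eval (T.emb x))) (T.emb x) (-1)
    have hj1 : 1 ≤ j := by
      by_contra hcon
      have : j = 0 := by omega
      rw [this, c0] at hj
      exact hj rfl
    rw [cj x j hj1] at hj hj'
    have hjd : j ≤ f.natDegree := by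
      by_contra hcon
      apply hj
      apply coeff_eq_zero_of_natDegree_lt
      rw [natDegree_taylor, hnd]
      omega
    have h1 := hlow x hx j hj1 ((T.coeff_ne_zero).mp hj) hjd
    apply all_close_of_Sg (v := T.rv) (T.pol - C (T.pol.eval (T.emb x))).roots (T.emb x) (-1)
    · rw [Pool.Agent.Helper93.SU.card_roots_sub_C, hnd, hj']
      linarith
    · rw [mem_roots (monic_sub_C hmon hd1 _).ne_zero, IsRoot.def, eval_sub, eval_C, hz, sub_self]
  have hex : ∃ z0, T.pol.eval z0 = T.pol.eval (T.emb x0) ∧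
      ∀ s, -1 < s → ¬ close T.rv s (T.emb x0) z0 := by
    by_contra hcon
    push Not at hcon
    have h1 : ∀ z ∈ (T.pol - C (T.pol.eval (T.emb x0))).roots,
        -1 < tau T.rv 0 (T.emb x0 - z) := by
      intro z hz
      rw [mem_roots (monic_sub_C hmon hd1 _).ne_zero, IsRoot.def, eval_sub, eval_C,
        sub_eq_zero] at hz
      obtain ⟨s, hs1, hs2⟩ := hcon z hz
      by_cases hne : T.emb x0 - z = 0
      · rw [hne, tau_zero]; norm_num
      · rw [tau_of_ne _ hne]
        apply lt_min (by norm_num)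
        rw [close_iff] at hs2
        rcases hs2 with h | h
        · exact absurd (sub_eq_zero.mpr h) hne
        · exact hs1.trans_le h
    obtain ⟨s, hs1, hs2, hs3⟩ := exists_common_level _ _ h1
    have h2 := Sg_all_close _ _ _ hs3
    rw [Pool.Agent.Helper93.SU.card_roots_sub_C, hnd] at h2
    have h3 := (gauss (v := T.rv) (monic_sub_C hmon hd1 (T.pol.eval (T.emb x0))) (T.emb x0) s).1 i
      (by rw [cj x0 i hi1]; exact (T.coeff_ne_zero).mpr hi3)
    rw [h2, cj x0 i hi1, T.o_coeff hd hi3, hi4, hα] at h3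
    have h4 : ((1 - (i : ℝ)) * alpha v f + (((f.natDegree : ℝ) - 1) * alpha v f -
        ((f.natDegree : ℝ) - i) * ((eps v f X : ℝ) + alpha v f))) / (eps v f X : ℝ) =
        -((f.natDegree : ℝ) - i) := by
      field_simp
      ring
    rw [h4] at h3
    have h5 : (i : ℝ) + 1 ≤ f.natDegree := by exact_mod_cast hi2
    nlinarith
  obtain ⟨z0, hz0, hz0'⟩ := hex
  refine ⟨z0, ?_⟩
  exact {
    monic := hmon
    deg := by rw [hnd]; exact hd
    inv := by
      rintro _ ⟨x, hx, rfl⟩
      exact ⟨f.eval x, hX x hx, (T.eval_pol x).symm⟩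
    mem0 := ⟨x0, hx0, rfl⟩
    ge := by
      rintro _ ⟨x, hx, rfl⟩
      rw [close_iff]
      by_cases h : x0 = x
      · left; rw [h]
      · right
        rw [T.o_emb hd h, le_div_iff₀ heR]
        have := w_ge_neg_eps (v := v) hd hX hx0 hx h
        linarith
    root_ge := by
      rintro _ ⟨x, hx, rfl⟩ z hz
      exact hroot x hx z hz
    att := hz0
    att' := hz0' }

section final

variable {K : Type u} [Field K] {v : DV K} {f : K[X]}

open Classical in
lemma esum_eq (hd : 2 ≤ f.natDegree) {e : ℝ} (T : Tr v f e) (I : Finset K) :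
    Esum T.rv (I.image T.emb) = Ew v f I / e := by
  unfold Esum Ew
  rw [sum_image (fun x _ y _ h => T.emb_inj h), sum_div]
  apply sum_congr rfl
  intro x hx
  rw [← image_erase T.emb_inj, sum_image (fun x _ y _ h => T.emb_inj h), sum_div]
  apply sum_congr rfl
  intro y hy
  exact T.o_emb hd (ne_of_mem_erase hy).symm

end final

/-- **Transfer: lower bound for the energy.** -/
theorem trans_le (d : ℕ) (hd : 2 ≤ d) (δ : ℝ) (hδ : 0 < δ) : ∃ N0 : ℕ,
    ∀ {K : Type u} [Field K] (v : DV K) (f : K[X]), f.natDegree = d →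
    ∀ (X : Finset K), (∀ x ∈ X, f.eval x ∈ X) → 0 < eps v f X → ∀ I : Finset K, I ⊆ X →
    N0 ≤ I.card → -(δ * (I.card : ℝ) ^ 2 * (eps v f X : ℝ)) ≤ Ew v f I := by
  classical
  obtain ⟨N0, h⟩ := local_le.{u} d hd δ hδ
  refine ⟨N0, ?_⟩
  intro K _ v f hf X hX he I hI hcard
  have hd' : 2 ≤ f.natDegree := by rw [hf]; exact hd
  have heR : (0 : ℝ) < eps v f X := by exact_mod_cast he
  obtain ⟨T⟩ := exists_tr v f heR hd'
  obtain ⟨x0, z0, L⟩ := exists_locData hd' hX he T
  have hc : (I.image T.emb).card = I.card := card_image_of_injective I T.emb_inj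
  have h1 := h L (by rw [T.natDegree_pol hd', hf]) (I.image T.emb) (by
    intro x hx
    obtain ⟨y, hy, rfl⟩ := mem_image.mp hx
    exact ⟨y, hI hy, rfl⟩) (by rw [hc]; exact hcard)
  rw [hc, esum_eq hd' T, le_div_iff₀ heR] at h1
  linarith

/-- **Transfer: gain.** -/
theorem trans_st (d : ℕ) (hd : 2 ≤ d) (A κ : ℝ) (hκ : 0 < κ) : ∃ δ : ℝ, 0 < δ ∧ ∃ N0 : ℕ,
    ∀ {K : Type u} [Field K] (v : DV K),
    (∀ n : ℕ, n ≠ 0 → n ≤ d → (n : K) ≠ 0 ∧ v.o (n : K) = 0) →
    ∀ (f : K[X]), f.natDegree = d →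
    ∀ (X : Finset K), (∀ x ∈ X, f.eval x ∈ X) → 0 < eps v f X → ∀ I : Finset K, I ⊆ X →
    N0 ≤ I.card → Ew v f I ≤ δ * (I.card : ℝ) ^ 2 * (eps v f X : ℝ) →
    ∀ s : Finset K, s ⊆ I → κ * I.card < s.card →
    ∃ x ∈ s, ∃ y ∈ s, x ≠ y ∧ A * (eps v f X : ℝ) ≤ w v f x y := by
  classical
  obtain ⟨δ, hδ, N0, h⟩ := local_st'.{u} d hd A κ hκ
  refine ⟨δ, hδ, N0, ?_⟩
  intro K _ v hchar f hf X hX he I hI hcard hE s hs hsc
  have hd' : 2 ≤ f.natDegree := by rw [hf]; exact hd
  have heR : (0 : ℝ) < eps v f X := by exact_mod_cast he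
  obtain ⟨T⟩ := exists_tr v f heR hd'
  obtain ⟨x0, z0, L⟩ := exists_locData hd' hX he T
  have hc : ∀ J : Finset K, (J.image T.emb).card = J.card := fun J =>
    card_image_of_injective J T.emb_inj
  obtain ⟨x, hx, y, hy, hxy, hA⟩ := h L (by rw [T.natDegree_pol hd', hf]) (by
    intro n hn hnd
    obtain ⟨h1, h2⟩ := hchar n hn (by rwa [T.natDegree_pol hd', hf] at hnd)
    have h3 : ((n : K) : K) ≠ 0 := h1
    have h4 : algebraMap K (AlgebraicClosure K) (n : K) = (n : AlgebraicClosure K) := map_natCast _ n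
    refine ⟨by rw [← h4]; exact (_root_.map_ne_zero _).mpr h3, ?_⟩
    change T.u.o _ / _ = 0
    rw [← h4, T.hu _ h3, h2]
    simp) (I.image T.emb) (by
    intro x hx
    obtain ⟨y, hy, rfl⟩ := mem_image.mp hx
    exact ⟨y, hI hy, rfl⟩) (by rw [hc]; exact hcard) (by
    rw [hc, esum_eq hd' T, div_le_iff₀ heR]
    exact hE) (s.image T.emb) (image_subset_image hs) (by rw [hc, hc]; exact hsc)
  obtain ⟨x', hx', rfl⟩ := mem_image.mp hx
  obtain ⟨y', hy', rfl⟩ := mem_image.mp hy
  have hne : x' ≠ y' := fun h => hxy (by rw [h])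
  refine ⟨x', hx', y', hy', hne, ?_⟩
  rw [T.o_emb hd' hne, le_div_iff₀ heR] at hA
  exact hA

end Pool.Agent.Helper36.PQ
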